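import Mathlib

set_option autoImplicit false

open MeasureTheory Set
open scoped Pointwise

namespace Pool.Agent.Results.MP_de3f1f_gt.NonRegularMinimiser

/-- Euclidean space of dimension `d`. -/
abbrev E (d : ℕ) : Type := EuclideanSpace ℝ (Fin d)

/-- The zonotope `∑ᵢ [o, pᵢ]`, the Minkowski sum of the segments `[o, pᵢ]`. -/
def zonotope {d n : ℕ} (p : Fin n → E d) : Set (E d) := ∑ i, segment ℝ (0 : E d) (p i)

/-- A rhombic dodecahedron in dimension `d`: a `d`-dimensional zonotope generated by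
`d + 1` segments. -/
def IsRhombicDodecahedron (d : ℕ) (Z : Set (E d)) : Prop :=
  (∃ p : Fin (d + 1) → E d, Z = zonotope p) ∧ (interior Z).Nonempty

/-- `p` lists the vertices of a regular simplex centred at the origin. -/
def IsCentredRegularSimplex {d : ℕ} (p : Fin (d + 1) → E d) : Prop :=
  (∑ i, p i = 0) ∧ ∃ l : ℝ, 0 < l ∧ ∀ i j, i ≠ j → dist (p i) (p j) = l

/-- `Z` is a regular rhombic dodecahedron: a translate of `∑ᵢ [o, pᵢ]` where the `pᵢ` are the
vertices of a regular simplex centred at the origin. -/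
def IsRegular (d : ℕ) (Z : Set (E d)) : Prop :=
  ∃ (p : Fin (d + 1) → E d) (v : E d),
    IsCentredRegularSimplex p ∧ Z = (fun x => v + x) '' zonotope p

/-- The circumradius: the radius of the smallest closed ball containing `Z`. -/
noncomputable def circumradius {d : ℕ} (Z : Set (E d)) : ℝ :=
  sInf {r : ℝ | ∃ c : E d, Z ⊆ Metric.closedBall c r}

/-! ### Determinants and parallelepipeds -/

/-- The determinant of three vectors. -/
def D (u v w : E 3) : ℝ :=
  u 0 * (v 1 * w 2 - v 2 * w 1) - u 1 * (v 0 * w 2 - v 2 * w 0)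
    + u 2 * (v 0 * w 1 - v 1 * w 0)

theorem zonotope_eq {d n : ℕ} (p : Fin n → E d) : zonotope p = parallelepiped p :=
  (parallelepiped_eq_sum_segment p).symm

theorem basis_det (v : Fin 3 → E 3) :
    (EuclideanSpace.basisFun (Fin 3) ℝ).toBasis.det v = D (v 0) (v 1) (v 2) := by
  rw [Module.Basis.det_apply, Matrix.det_fin_three]
  simp only [Module.Basis.toMatrix_apply, OrthonormalBasis.coe_toBasis_repr_apply,
    EuclideanSpace.basisFun_repr, D]
  ring

theorem vol_para (v : Fin 3 → E 3) :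
    volume (parallelepiped v) = ENNReal.ofReal |D (v 0) (v 1) (v 2)| := by
  rw [← (EuclideanSpace.basisFun (Fin 3) ℝ).addHaar_eq_volume, Measure.addHaar_parallelepiped,
    basis_det]

theorem norm_sq3 (u : E 3) : ‖u‖ ^ 2 = u 0 ^ 2 + u 1 ^ 2 + u 2 ^ 2 := by
  rw [EuclideanSpace.norm_sq_eq, Fin.sum_univ_three]
  simp only [Real.norm_eq_abs, sq_abs]

theorem abs_D_le (u v w : E 3) : |D u v w| ≤ ‖u‖ * ‖v‖ * ‖w‖ := by
  have h : (D u v w) ^ 2 ≤ (‖u‖ * ‖v‖ * ‖w‖) ^ 2 := by
    rw [mul_pow, mul_pow, norm_sq3, norm_sq3, norm_sq3]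
    unfold D
    set a0 := u 0
    set a1 := u 1
    set a2 := u 2
    set b0 := v 0
    set b1 := v 1
    set b2 := v 2
    set c0 := w 0
    set c1 := w 1
    set c2 := w 2
    have h1 : (a0 * (b1 * c2 - b2 * c1) - a1 * (b0 * c2 - b2 * c0) + a2 * (b0 * c1 - b1 * c0)) ^ 2
        ≤ (a0 ^ 2 + a1 ^ 2 + a2 ^ 2) *
          ((b1 * c2 - b2 * c1) ^ 2 + (b0 * c2 - b2 * c0) ^ 2 + (b0 * c1 - b1 * c0) ^ 2) := by
      nlinarith [sq_nonneg (a0 * (b0 * c2 - b2 * c0) + a1 * (b1 * c2 - b2 * c1)),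
        sq_nonneg (a0 * (b0 * c1 - b1 * c0) - a2 * (b1 * c2 - b2 * c1)),
        sq_nonneg (a1 * (b0 * c1 - b1 * c0) + a2 * (b0 * c2 - b2 * c0))]
    have h2 : (b1 * c2 - b2 * c1) ^ 2 + (b0 * c2 - b2 * c0) ^ 2 + (b0 * c1 - b1 * c0) ^ 2
        ≤ (b0 ^ 2 + b1 ^ 2 + b2 ^ 2) * (c0 ^ 2 + c1 ^ 2 + c2 ^ 2) := by
      nlinarith [sq_nonneg (b0 * c0 + b1 * c1 + b2 * c2)]
    have h3 : 0 ≤ a0 ^ 2 + a1 ^ 2 + a2 ^ 2 := by positivity
    calc _ ≤ _ := h1
      _ ≤ (a0 ^ 2 + a1 ^ 2 + a2 ^ 2) * ((b0 ^ 2 + b1 ^ 2 + b2 ^ 2) * (c0 ^ 2 + c1 ^ 2 + c2 ^ 2)) :=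
        mul_le_mul_of_nonneg_left h2 h3
      _ = _ := by ring
  exact abs_le_of_sq_le_sq h (by positivity) |> fun h => h

/-! ### Covering a zonotope with four generators -/

theorem mem_para {n : ℕ} (p : Fin n → E 3) (x : E 3) :
    x ∈ parallelepiped p ↔ ∃ t : Fin n → ℝ, (∀ i, 0 ≤ t i ∧ t i ≤ 1) ∧ x = ∑ i, t i • p i := by
  rw [mem_parallelepiped_iff]
  constructor
  · rintro ⟨t, ht, rfl⟩
    exact ⟨t, fun i => ⟨ht.1 i, ht.2 i⟩, rfl⟩
  · rintro ⟨t, ht, rfl⟩
    exact ⟨t, ⟨fun i => (ht i).1, fun i => (ht i).2⟩, rfl⟩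

/-- Covering by four translated parallelepipeds, given a nontrivial linear relation. -/
theorem cover (p : Fin 4 → E 3) (g : Fin 4 → ℝ) (hg : ∃ i, g i ≠ 0)
    (hrel : ∑ i, g i • p i = 0) :
    parallelepiped p ⊆ ⋃ i, (fun x => (if 0 < g i then (0 : E 3) else p i) + x) ''
      parallelepiped (fun j => p (i.succAbove j)) := by
  intro x hx
  obtain ⟨t, ht, rfl⟩ := (mem_para p x).1 hx
  let S : Finset (Fin 4) := Finset.univ.filter (fun i => g i ≠ 0)
  have hS : S.Nonempty := by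
    obtain ⟨i, hi⟩ := hg
    exact ⟨i, by simp [S, hi]⟩
  let f : Fin 4 → ℝ := fun i => if 0 < g i then t i / g i else (t i - 1) / g i
  obtain ⟨i, hiS, hmin⟩ := S.exists_min_image f hS
  have hgi : g i ≠ 0 := by simpa [S] using hiS
  have hf0 : 0 ≤ f i := by
    simp only [f]
    split_ifs with h
    · exact div_nonneg (ht i).1 h.le
    · exact div_nonneg_of_nonpos (by linarith [(ht i).2]) (not_lt.1 h)
  let t' : Fin 4 → ℝ := fun j => t j - f i * g j
  have ht' : ∀ j, 0 ≤ t' j ∧ t' j ≤ 1 := by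
    intro j
    simp only [t']
    by_cases hj : g j = 0
    · rw [hj]; simpa using ht j
    · have hm := hmin j (by simp [S, hj])
      rcases lt_or_gt_of_ne hj with hneg | hpos
      · have hfj : f j = (t j - 1) / g j := by simp [f, not_lt.2 hneg.le]
        rw [hfj] at hm
        constructor
        · nlinarith [(ht j).1]
        · have : (t j - 1) / g j * g j = t j - 1 := by field_simp
          nlinarith [mul_le_mul_of_nonpos_right hm hneg.le]
      · have hfj : f j = t j / g j := by simp [f, hpos]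
        rw [hfj] at hm
        constructor
        · have : t j / g j * g j = t j := by field_simp
          nlinarith [mul_le_mul_of_nonneg_right hm hpos.le]
        · nlinarith [(ht j).2]
  have hx' : ∑ j, t j • p j = ∑ j, t' j • p j := by
    simp only [t', sub_smul, Finset.sum_sub_distrib, mul_smul, ← Finset.smul_sum, hrel]
    simp
  have hi' : t' i • p i = (if 0 < g i then (0 : E 3) else p i) := by
    simp only [t', f]
    split_ifs with h
    · have : t i - t i / g i * g i = 0 := by field_simp; ring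
      rw [this, zero_smul]
    · have : t i - (t i - 1) / g i * g i = 1 := by field_simp; ring
      rw [this, one_smul]
  refine mem_iUnion.2 ⟨i, ∑ j : Fin 3, t' (i.succAbove j) • p (i.succAbove j), ?_, ?_⟩
  · exact (mem_para _ _).2 ⟨fun j => t' (i.succAbove j), fun j => ht' _, rfl⟩
  · simp only
    rw [hx', Fin.sum_univ_succAbove _ i, hi']

theorem vol_le_sum (p : Fin 4 → E 3) (g : Fin 4 → ℝ) (hg : ∃ i, g i ≠ 0)
    (hrel : ∑ i, g i • p i = 0) :
    volume (parallelepiped p) ≤ ENNReal.ofReal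
      (∑ i : Fin 4, |D (p (i.succAbove 0)) (p (i.succAbove 1)) (p (i.succAbove 2))|) := by
  refine (measure_mono (cover p g hg hrel)).trans ((measure_iUnion_fintype_le _ _).trans ?_)
  rw [ENNReal.ofReal_sum_of_nonneg (fun i _ => abs_nonneg _)]
  refine Finset.sum_le_sum (fun i _ => ?_)
  have := measure_preimage_add (volume : Measure (E 3)) (-(if 0 < g i then (0 : E 3) else p i))
    (parallelepiped (fun j => p (i.succAbove j)))
  rw [image_add_left, this, vol_para]


/-! ### The lower bound on the circumradius -/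

theorem norm_signed (p : Fin 4 → E 3) (c : E 3) (r : ℝ)
    (hr : parallelepiped p ⊆ Metric.closedBall c r) (τ : Fin 4 → ℝ)
    (hτ : ∀ i, τ i = 1 ∨ τ i = -1) : ‖∑ i, τ i • p i‖ ≤ 2 * r := by
  have hx : (∑ i, ((1 + τ i) / 2) • p i) ∈ parallelepiped p :=
    (mem_para _ _).2 ⟨_, fun i => by rcases hτ i with h | h <;> rw [h] <;> norm_num, rfl⟩
  have hy : (∑ i, ((1 - τ i) / 2) • p i) ∈ parallelepiped p :=
    (mem_para _ _).2 ⟨_, fun i => by rcases hτ i with h | h <;> rw [h] <;> norm_num, rfl⟩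
  have h1 := hr hx
  have h2 := hr hy
  rw [mem_closedBall_iff_norm] at h1 h2
  have h3 : ∑ i, τ i • p i = ((∑ i, ((1 + τ i) / 2) • p i) - c) -
      ((∑ i, ((1 - τ i) / 2) • p i) - c) := by
    rw [sub_sub_sub_cancel_right, ← Finset.sum_sub_distrib]
    refine Finset.sum_congr rfl (fun i _ => ?_)
    rw [← sub_smul]
    congr 1
    ring
  rw [h3]
  exact (norm_sub_le _ _).trans (by linarith)

theorem D_smul (a b c : ℝ) (u v w : E 3) : D (a • u) (b • v) (c • w) = a * b * c * D u v w := by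
  simp only [D, PiLp.smul_apply, smul_eq_mul]
  ring

theorem sum_det_le (p : Fin 4 → E 3) (g : Fin 4 → ℝ) (hg : ∃ i, g i ≠ 0)
    (hrel : ∑ i, g i • p i = 0) (c : E 3) (r : ℝ)
    (hr : parallelepiped p ⊆ Metric.closedBall c r) :
    ∑ i : Fin 4, |D (p (i.succAbove 0)) (p (i.succAbove 1)) (p (i.succAbove 2))|
      ≤ 2 * r ^ 3 := by
  let σ : Fin 4 → ℝ := fun i => if 0 < g i then 1 else -1
  have hσ : ∀ i, σ i = 1 ∨ σ i = -1 := by
    intro i; simp only [σ]; split_ifs <;> simp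
  have hσabs : ∀ i, |σ i| = 1 := by
    intro i; rcases hσ i with h | h <;> rw [h] <;> simp
  have hσg : ∀ i, σ i * |g i| = g i := by
    intro i; simp only [σ]; split_ifs with h
    · rw [abs_of_pos h]; ring
    · rw [abs_of_nonpos (not_lt.1 h)]; ring
  obtain ⟨q, hq⟩ : ∃ q : Fin 4 → E 3, ∀ i, q i = σ i • p i := ⟨fun i => σ i • p i, fun i => rfl⟩
  obtain ⟨l, hl⟩ : ∃ l : Fin 4 → ℝ, ∀ i, l i = |g i| := ⟨fun i => |g i|, fun i => rfl⟩
  have hlnn : ∀ i, 0 ≤ l i := fun i => by rw [hl]; positivity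
  have hrelq : ∑ i, l i • q i = 0 := by
    rw [← hrel]
    refine Finset.sum_congr rfl (fun i _ => ?_)
    rw [hq, hl, smul_smul, mul_comm, hσg]
  obtain ⟨m, hm⟩ := hg
  have hlm : 0 < l m := by rw [hl]; exact abs_pos.2 hm
  rw [Fin.sum_univ_four] at hrelq
  have hc : ∀ k : Fin 3, l 0 * q 0 k + l 1 * q 1 k + l 2 * q 2 k + l 3 * q 3 k = 0 := by
    intro k
    have := congrArg (fun v : E 3 => v k) hrelq
    simpa using this
  have h0 := hc 0
  have h1 := hc 1
  have h2 := hc 2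
  obtain ⟨e, he⟩ : ∃ e : Fin 4 → ℝ, e = ![D (q 1) (q 2) (q 3), -D (q 0) (q 2) (q 3),
    D (q 0) (q 1) (q 3), -D (q 0) (q 1) (q 2)] := ⟨_, rfl⟩
  have hel : ∀ i j, e i * l j = e j * l i := by
    have e01 : e 0 * l 1 = e 1 * l 0 := by
      simp only [he, D, Matrix.cons_val_zero, Matrix.cons_val_one]
      linear_combination (q 2 1 * q 3 2 - q 2 2 * q 3 1) * h0
        - (q 2 0 * q 3 2 - q 2 2 * q 3 0) * h1 + (q 2 0 * q 3 1 - q 2 1 * q 3 0) * h2
    have e02 : e 0 * l 2 = e 2 * l 0 := by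
      simp only [he, D, Matrix.cons_val_zero, Matrix.cons_val]
      linear_combination -(q 1 1 * q 3 2 - q 1 2 * q 3 1) * h0
        + (q 1 0 * q 3 2 - q 1 2 * q 3 0) * h1 - (q 1 0 * q 3 1 - q 1 1 * q 3 0) * h2
    have e03 : e 0 * l 3 = e 3 * l 0 := by
      simp only [he, D, Matrix.cons_val_zero, Matrix.cons_val]
      linear_combination (q 1 1 * q 2 2 - q 1 2 * q 2 1) * h0
        - (q 1 0 * q 2 2 - q 1 2 * q 2 0) * h1 + (q 1 0 * q 2 1 - q 1 1 * q 2 0) * h2
    have e12 : e 1 * l 2 = e 2 * l 1 := by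
      simp only [he, D, Matrix.cons_val_one, Matrix.cons_val]
      linear_combination (q 0 1 * q 3 2 - q 0 2 * q 3 1) * h0
        - (q 0 0 * q 3 2 - q 0 2 * q 3 0) * h1 + (q 0 0 * q 3 1 - q 0 1 * q 3 0) * h2
    have e13 : e 1 * l 3 = e 3 * l 1 := by
      simp only [he, D, Matrix.cons_val_one, Matrix.cons_val]
      linear_combination -(q 0 1 * q 2 2 - q 0 2 * q 2 1) * h0
        + (q 0 0 * q 2 2 - q 0 2 * q 2 0) * h1 - (q 0 0 * q 2 1 - q 0 1 * q 2 0) * h2
    have e23 : e 2 * l 3 = e 3 * l 2 := by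
      simp only [he, D, Matrix.cons_val]
      linear_combination (q 0 1 * q 1 2 - q 0 2 * q 1 1) * h0
        - (q 0 0 * q 1 2 - q 0 2 * q 1 0) * h1 + (q 0 0 * q 1 1 - q 0 1 * q 1 0) * h2
    intro i j
    fin_cases i <;> fin_cases j <;> first | rfl | assumption | (symm; assumption)
  have habs : ∑ i, |e i| = |∑ i, e i| := by
    have h3 : ∀ i, e i = l i * (e m / l m) := by
      intro i
      field_simp
      rw [hel i m]; ring
    have h4 : ∑ i, e i = (∑ i, l i) * (e m / l m) := by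
      rw [Finset.sum_mul]; exact Finset.sum_congr rfl (fun i _ => h3 i)
    rw [h4, abs_mul, abs_of_nonneg (Finset.sum_nonneg fun i _ => hlnn i), Finset.sum_mul]
    refine Finset.sum_congr rfl (fun i _ => ?_)
    rw [h3 i, abs_mul, abs_of_nonneg (hlnn i)]
  have hsum : ∑ i : Fin 4, |D (p (i.succAbove 0)) (p (i.succAbove 1)) (p (i.succAbove 2))|
      = ∑ i, |e i| := by
    have hs : ∀ a b c, |D (p a) (p b) (p c)| = |D (q a) (q b) (q c)| := by
      intro a b c
      rw [hq, hq, hq, D_smul, abs_mul, abs_mul, abs_mul, hσabs, hσabs, hσabs]; ring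
    rw [Fin.sum_univ_four, Fin.sum_univ_four]
    simp only [he, Matrix.cons_val_zero, Matrix.cons_val_one, Matrix.cons_val, abs_neg]
    have a0 : (0 : Fin 4).succAbove 0 = 1 := rfl
    have a1 : (0 : Fin 4).succAbove 1 = 2 := rfl
    have a2 : (0 : Fin 4).succAbove 2 = 3 := rfl
    have b0 : (1 : Fin 4).succAbove 0 = 0 := rfl
    have b1 : (1 : Fin 4).succAbove 1 = 2 := rfl
    have b2 : (1 : Fin 4).succAbove 2 = 3 := rfl
    have c0 : (2 : Fin 4).succAbove 0 = 0 := rfl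
    have c1 : (2 : Fin 4).succAbove 1 = 1 := rfl
    have c2 : (2 : Fin 4).succAbove 2 = 3 := rfl
    have d0 : (3 : Fin 4).succAbove 0 = 0 := rfl
    have d1 : (3 : Fin 4).succAbove 1 = 1 := rfl
    have d2 : (3 : Fin 4).succAbove 2 = 2 := rfl
    rw [a0, a1, a2, b0, b1, b2, c0, c1, c2, d0, d1, d2, hs, hs, hs, hs]
  have hE : ∑ i, e i = -(D (q 0 + q 1 - q 2 - q 3) (q 0 - q 1 + q 2 - q 3)
      (q 0 - q 1 - q 2 + q 3)) / 4 := by
    rw [Fin.sum_univ_four]
    simp only [he, Matrix.cons_val_zero, Matrix.cons_val_one, Matrix.cons_val, D,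
      PiLp.add_apply, PiLp.sub_apply]
    ring
  have hn : ∀ τ : Fin 4 → ℝ, (∀ i, τ i = 1 ∨ τ i = -1) → ‖∑ i, τ i • q i‖ ≤ 2 * r := by
    intro τ hτ
    have := norm_signed p c r hr (fun i => τ i * σ i) (by
      intro i
      rcases hτ i with h | h <;> rcases hσ i with h' | h' <;> simp only [h, h'] <;> norm_num)
    simpa only [hq, smul_smul] using this
  have n1 : ‖q 0 + q 1 - q 2 - q 3‖ ≤ 2 * r := by
    have := hn ![1, 1, -1, -1] (by intro i; fin_cases i <;> simp)
    rw [Fin.sum_univ_four] at this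
    simpa [sub_eq_add_neg] using this
  have n2 : ‖q 0 - q 1 + q 2 - q 3‖ ≤ 2 * r := by
    have := hn ![1, -1, 1, -1] (by intro i; fin_cases i <;> simp)
    rw [Fin.sum_univ_four] at this
    simpa [sub_eq_add_neg] using this
  have n3 : ‖q 0 - q 1 - q 2 + q 3‖ ≤ 2 * r := by
    have := hn ![1, -1, -1, 1] (by intro i; fin_cases i <;> simp)
    rw [Fin.sum_univ_four] at this
    simpa [sub_eq_add_neg] using this
  have hr0 : 0 ≤ 2 * r := (norm_nonneg _).trans n1
  have hD := abs_D_le (q 0 + q 1 - q 2 - q 3) (q 0 - q 1 + q 2 - q 3) (q 0 - q 1 - q 2 + q 3)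
  have hP : ‖q 0 + q 1 - q 2 - q 3‖ * ‖q 0 - q 1 + q 2 - q 3‖ * ‖q 0 - q 1 - q 2 + q 3‖
      ≤ (2 * r) * (2 * r) * (2 * r) := by gcongr
  rw [hsum, habs, hE, abs_div, abs_neg]
  have h4 : |(4 : ℝ)| = 4 := by norm_num
  rw [h4]
  linarith [hD.trans hP, (by ring : 2 * r * (2 * r) * (2 * r) = 8 * r ^ 3)]

theorem exists_rel (p : Fin 4 → E 3) : ∃ g : Fin 4 → ℝ, (∃ i, g i ≠ 0) ∧ ∑ i, g i • p i = 0 := by
  have h : ¬ LinearIndependent ℝ p := by
    intro h
    have := h.fintype_card_le_finrank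
    simp at this
  obtain ⟨g, h1, h2⟩ := Fintype.not_linearIndependent_iff.1 h
  exact ⟨g, h2, h1⟩

/-- A zonotope with four generators contained in a ball of radius `r` has volume `≤ 2 r^3`. -/
theorem vol_le (p : Fin 4 → E 3) (c : E 3) (r : ℝ)
    (hr : parallelepiped p ⊆ Metric.closedBall c r) :
    volume (parallelepiped p) ≤ ENNReal.ofReal (2 * r ^ 3) := by
  obtain ⟨g, hg, hrel⟩ := exists_rel p
  exact (vol_le_sum p g hg hrel).trans (ENNReal.ofReal_le_ofReal (sum_det_le p g hg hrel c r hr))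

theorem para_bounded (p : Fin 4 → E 3) : ∃ c r, parallelepiped p ⊆ Metric.closedBall c r := by
  have h : IsCompact (parallelepiped p) := by
    unfold parallelepiped
    exact isCompact_Icc.image (by fun_prop)
  obtain ⟨r, hr⟩ := h.isBounded.subset_closedBall 0
  exact ⟨0, r, hr⟩

theorem circ_ge (k : ℝ) (hk : 3456 * k ^ 3 = 1) (Z : Set (E 3))
    (hZ : IsRhombicDodecahedron 3 Z) (hv : volume Z = 1) : 12 * k ≤ circumradius Z := by
  obtain ⟨⟨p, rfl⟩, -⟩ := hZ
  rw [zonotope_eq] at hv ⊢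
  refine le_csInf ?_ ?_
  · obtain ⟨c, r, h⟩ := para_bounded p
    exact ⟨r, c, h⟩
  · rintro r ⟨c, hc⟩
    have h1 := vol_le p c r hc
    rw [hv, ← ENNReal.ofReal_one] at h1
    have h2 : 1 ≤ 2 * r ^ 3 := by
      by_contra hlt
      push Not at hlt
      exact absurd h1 (not_le.2 ((ENNReal.ofReal_lt_ofReal_iff one_pos).2 hlt))
    have h3 : (12 * k) ^ 3 ≤ r ^ 3 := by nlinarith
    exact (Odd.pow_le_pow (by decide : Odd 3)).1 h3


/-! ### The example -/

/-- The four (unscaled) generators. -/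
noncomputable def w : Fin 4 → E 3 :=
  ![!₂[7, 7, 7], !₂[7, -5, -5], !₂[-5, 7, -5], !₂[-5, -5, 7]]

/-- Scaled generators. -/
noncomputable def gen (k : ℝ) : Fin 4 → E 3 := fun i => k • w i

theorem gen_rel (k : ℝ) : ∑ i, (![3, 7, 7, 7] : Fin 4 → ℝ) i • gen k i = 0 := by
  rw [Fin.sum_univ_four]
  ext j
  fin_cases j <;> simp [gen, w] <;> ring

theorem gen_D (k : ℝ) :
    D (gen k 1) (gen k 2) (gen k 3) = -432 * k ^ 3 ∧
    D (gen k 0) (gen k 2) (gen k 3) = 1008 * k ^ 3 ∧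
    D (gen k 0) (gen k 1) (gen k 3) = -1008 * k ^ 3 ∧
    D (gen k 0) (gen k 1) (gen k 2) = 1008 * k ^ 3 := by
  refine ⟨?_, ?_, ?_, ?_⟩ <;> simp [gen, w, D] <;> ring

theorem gen_li (k : ℝ) (hk : 0 < k) (m : Fin 4) :
    LinearIndependent ℝ (fun j => gen k (m.succAbove j)) := by
  have h : (EuclideanSpace.basisFun (Fin 3) ℝ).toBasis.det (fun j => gen k (m.succAbove j)) ≠ 0 := by
    rw [basis_det]
    obtain ⟨h0, h1, h2, h3⟩ := gen_D k
    have hk3 : k ^ 3 ≠ 0 := by positivity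
    fin_cases m
    · change D (gen k 1) (gen k 2) (gen k 3) ≠ 0
      rw [h0]; simpa using hk.ne'
    · change D (gen k 0) (gen k 2) (gen k 3) ≠ 0
      rw [h1]; simpa using hk.ne'
    · change D (gen k 0) (gen k 1) (gen k 3) ≠ 0
      rw [h2]; simpa using hk.ne'
    · change D (gen k 0) (gen k 1) (gen k 2) ≠ 0
      rw [h3]; simpa using hk.ne'
  exact ((Module.Basis.is_basis_iff_det _).2 (isUnit_iff_ne_zero.2 h)).1

theorem ae_disj (p : Fin 4 → E 3) (lam : Fin 4 → ℝ) (hpos : ∀ i, 0 < lam i)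
    (hrel : ∑ i, lam i • p i = 0)
    (hli : ∀ m : Fin 4, LinearIndependent ℝ (fun j => p (m.succAbove j)))
    (i j : Fin 4) (hij : i ≠ j) :
    volume (parallelepiped (fun a => p (i.succAbove a)) ∩
      parallelepiped (fun a => p (j.succAbove a))) = 0 := by
  have hcard : Fintype.card {k : Fin 4 // k ≠ i ∧ k ≠ j} = 2 := by
    revert hij; revert i j; decide
  have hsub : parallelepiped (fun a => p (i.succAbove a)) ∩
      parallelepiped (fun a => p (j.succAbove a)) ⊆
      (Submodule.span ℝ (range fun k : {k : Fin 4 // k ≠ i ∧ k ≠ j} => p k) : Set (E 3)) := by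
    rintro x ⟨h1, h2⟩
    obtain ⟨t, ht, hx⟩ := (mem_para _ _).1 h1
    obtain ⟨s, hs, hx'⟩ := (mem_para _ _).1 h2
    let T : Fin 4 → ℝ := Fin.insertNth (α := fun _ => ℝ) i 0 t
    let S : Fin 4 → ℝ := Fin.insertNth (α := fun _ => ℝ) j 0 s
    have hTi : T i = 0 := Fin.insertNth_apply_same _ _ _
    have hSj : S j = 0 := Fin.insertNth_apply_same _ _ _
    have hT : ∀ a, T (i.succAbove a) = t a := fun a => Fin.insertNth_apply_succAbove _ _ _ _
    have hS : ∀ a, S (j.succAbove a) = s a := fun a => Fin.insertNth_apply_succAbove _ _ _ _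
    have hT0 : ∀ a, 0 ≤ T a := by
      intro a
      rcases eq_or_ne a i with rfl | h
      · rw [hTi]
      · obtain ⟨b, rfl⟩ := Fin.exists_succAbove_eq h
        rw [hT]; exact (ht b).1
    have hS0 : ∀ a, 0 ≤ S a := by
      intro a
      rcases eq_or_ne a j with rfl | h
      · rw [hSj]
      · obtain ⟨b, rfl⟩ := Fin.exists_succAbove_eq h
        rw [hS]; exact (hs b).1
    have hxT : x = ∑ a, T a • p a := by
      rw [Fin.sum_univ_succAbove _ i, hTi, zero_smul, zero_add, hx]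
      exact Finset.sum_congr rfl (fun a _ => by rw [hT])
    have hxS : x = ∑ a, S a • p a := by
      rw [Fin.sum_univ_succAbove _ j, hSj, zero_smul, zero_add, hx']
      exact Finset.sum_congr rfl (fun a _ => by rw [hS])
    have hr : ∑ a, (T a - S a) • p a = 0 := by
      simp only [sub_smul, Finset.sum_sub_distrib]
      rw [← hxT, ← hxS, sub_self]
    set c : ℝ := (T j - S j) / lam j with hc
    have hcj : T j - S j - c * lam j = 0 := by
      rw [hc]; field_simp [(hpos j).ne']; ring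
    have hr2 : ∑ a, (T a - S a - c * lam a) • p a = 0 := by
      have : ∑ a, (T a - S a - c * lam a) • p a
          = ∑ a, (T a - S a) • p a - c • ∑ a, lam a • p a := by
        rw [Finset.smul_sum, ← Finset.sum_sub_distrib]
        exact Finset.sum_congr rfl (fun a _ => by rw [sub_smul, mul_smul])
      rw [this, hr, hrel, smul_zero, sub_zero]
    rw [Fin.sum_univ_succAbove _ j, hcj, zero_smul, zero_add] at hr2
    have hz := Fintype.linearIndependent_iff.1 (hli j) (fun a => T (j.succAbove a) - S (j.succAbove a)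
      - c * lam (j.succAbove a)) hr2
    obtain ⟨b, hb⟩ := Fin.exists_succAbove_eq hij
    have hzi := hz b
    simp only [hb] at hzi
    rw [hTi] at hzi
    have hc1 : c ≤ 0 := by nlinarith [hS0 i, hpos i]
    have hTj : T j = 0 := by
      have h5 : T j = c * lam j := by rw [hSj] at hcj; linarith
      exact le_antisymm (by rw [h5]; exact mul_nonpos_of_nonpos_of_nonneg hc1 (hpos j).le) (hT0 j)
    rw [hxT]
    refine Submodule.sum_mem _ (fun a _ => ?_)
    by_cases h1 : a = i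
    · rw [h1, hTi, zero_smul]; exact Submodule.zero_mem _
    · by_cases h2 : a = j
      · rw [h2, hTj, zero_smul]; exact Submodule.zero_mem _
      · exact Submodule.smul_mem _ _ (Submodule.subset_span ⟨⟨a, h1, h2⟩, rfl⟩)
  refine measure_mono_null hsub (Measure.addHaar_submodule _ _ ?_)
  intro htop
  have h1 := finrank_range_le_card (R := ℝ) (fun k : {k : Fin 4 // k ≠ i ∧ k ≠ j} => p k)
  rw [hcard, Set.finrank, htop, finrank_top] at h1
  simp at h1

theorem sub_para (p : Fin 4 → E 3) (i : Fin 4) :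
    parallelepiped (fun a => p (i.succAbove a)) ⊆ parallelepiped p := by
  intro x hx
  obtain ⟨t, ht, rfl⟩ := (mem_para _ _).1 hx
  refine (mem_para _ _).2 ⟨Fin.insertNth (α := fun _ => ℝ) i 0 t, ?_, ?_⟩
  · intro a
    rcases eq_or_ne a i with rfl | h
    · rw [Fin.insertNth_apply_same]; norm_num
    · obtain ⟨b, rfl⟩ := Fin.exists_succAbove_eq h
      rw [Fin.insertNth_apply_succAbove]; exact ht b
  · rw [Fin.sum_univ_succAbove _ i, Fin.insertNth_apply_same, zero_smul, zero_add]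
    exact Finset.sum_congr rfl (fun a _ => by rw [Fin.insertNth_apply_succAbove])

theorem para_compact {n : ℕ} (p : Fin n → E 3) : IsCompact (parallelepiped p) := by
  unfold parallelepiped
  exact isCompact_Icc.image (by fun_prop)

theorem vol_gen_ge (k : ℝ) (hk0 : 0 < k) (hk : 3456 * k ^ 3 = 1) :
    1 ≤ volume (parallelepiped (gen k)) := by
  have h1 : volume (⋃ i : Fin 4, parallelepiped (fun a => gen k (i.succAbove a)))
      = ∑' i : Fin 4, volume (parallelepiped (fun a => gen k (i.succAbove a))) := by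
    refine measure_iUnion₀ ?_ ?_
    · intro i j hij
      exact ae_disj (gen k) ![3, 7, 7, 7] (by intro i; fin_cases i <;> simp) (gen_rel k)
        (gen_li k hk0) i j hij
    · intro i
      exact (para_compact _).measurableSet.nullMeasurableSet
  have h2 : (⋃ i : Fin 4, parallelepiped (fun a => gen k (i.succAbove a))) ⊆
      parallelepiped (gen k) := iUnion_subset (fun i => sub_para _ i)
  refine le_trans ?_ (measure_mono h2)
  rw [h1, tsum_fintype, Fin.sum_univ_four, vol_para, vol_para, vol_para, vol_para]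
  obtain ⟨d0, d1, d2, d3⟩ := gen_D k
  change 1 ≤ ENNReal.ofReal |D (gen k 1) (gen k 2) (gen k 3)|
    + ENNReal.ofReal |D (gen k 0) (gen k 2) (gen k 3)|
    + ENNReal.ofReal |D (gen k 0) (gen k 1) (gen k 3)|
    + ENNReal.ofReal |D (gen k 0) (gen k 1) (gen k 2)|
  rw [d0, d1, d2, d3, ← ENNReal.ofReal_add (abs_nonneg _) (abs_nonneg _),
    ← ENNReal.ofReal_add (by positivity) (abs_nonneg _),
    ← ENNReal.ofReal_add (by positivity) (abs_nonneg _), ← ENNReal.ofReal_one]
  apply ENNReal.ofReal_le_ofReal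
  have hk3 : 0 < k ^ 3 := by positivity
  rw [abs_of_neg (by linarith), abs_of_pos (by positivity), abs_of_neg (by linarith)]
  linarith

theorem gen_sub_ball (k : ℝ) (hk0 : 0 < k) :
    parallelepiped (gen k) ⊆ Metric.closedBall (k • (!₂[2, 2, 2] : E 3)) (12 * k) := by
  rw [parallelepiped_eq_convexHull]
  refine convexHull_min ?_ (convex_closedBall _ _)
  intro x hx
  rw [Set.mem_finsetSum] at hx
  obtain ⟨g, hg, rfl⟩ := hx
  rw [mem_closedBall_iff_norm]
  have h : ∀ i, ∃ t : ℝ, (t = 0 ∨ t = 1) ∧ g i = t • gen k i := by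
    intro i
    have := hg (Finset.mem_univ i)
    rcases this with h | h
    · exact ⟨0, Or.inl rfl, by rw [h, zero_smul]⟩
    · exact ⟨1, Or.inr rfl, by rw [h, one_smul]⟩
  choose t ht hgt using h
  have hsq : ‖∑ i, g i - k • (!₂[2, 2, 2] : E 3)‖ ^ 2 ≤ (12 * k) ^ 2 := by
    rw [norm_sq3]
    simp only [hgt, Fin.sum_univ_four]
    simp only [gen, w, PiLp.sub_apply, PiLp.add_apply, PiLp.smul_apply, smul_eq_mul]
    simp only [Matrix.cons_val_zero, Matrix.cons_val_one, Matrix.cons_val]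
    have hk2 : 0 ≤ k ^ 2 := by positivity
    rcases ht 0 with h0 | h0 <;> rcases ht 1 with h1 | h1 <;> rcases ht 2 with h2 | h2 <;>
      rcases ht 3 with h3 | h3 <;> rw [h0, h1, h2, h3] <;> nlinarith
  exact abs_le_of_sq_le_sq' hsq (by positivity) |>.2

theorem circ_gen_le (k : ℝ) (hk0 : 0 < k) : circumradius (parallelepiped (gen k)) ≤ 12 * k := by
  refine csInf_le ?_ ⟨_, gen_sub_ball k hk0⟩
  refine ⟨0, ?_⟩
  rintro r ⟨c, hc⟩
  have h0 : (0 : E 3) ∈ parallelepiped (gen k) :=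
    (mem_para _ _).2 ⟨fun _ => 0, by simp, by simp⟩
  exact dist_nonneg.trans (Metric.mem_closedBall.1 (hc h0))


theorem interior_nonempty (p : Fin 4 → E 3) (h : volume (parallelepiped p) ≠ 0) :
    (interior (parallelepiped p)).Nonempty := by
  by_contra hne
  rw [not_nonempty_iff_eq_empty] at hne
  have h1 := (convex_parallelepiped p).addHaar_frontier volume
  apply h
  refine measure_mono_null ?_ h1
  rw [frontier, hne, sdiff_empty]
  exact subset_closure

/-! ### The example is not regular -/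

theorem inner3 (u v : E 3) : u 0 * v 0 + u 1 * v 1 + u 2 * v 2 = inner ℝ v u := by
  rw [PiLp.inner_apply, Fin.sum_univ_three]
  simp

/-- The Gram matrix of a centred regular simplex. -/
theorem gram (q : Fin 4 → E 3) (hsum : ∑ i, q i = 0) (l : ℝ)
    (hd : ∀ i j, i ≠ j → dist (q i) (q j) = l) :
    (∀ i, q i 0 * q i 0 + q i 1 * q i 1 + q i 2 * q i 2 = 3 * l ^ 2 / 8) ∧
    (∀ i j, i ≠ j → q i 0 * q j 0 + q i 1 * q j 1 + q i 2 * q j 2 = - l ^ 2 / 8) := by
  rw [Fin.sum_univ_four] at hsum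
  have hs : ∀ k : Fin 3, q 0 k + q 1 k + q 2 k + q 3 k = 0 := by
    intro k
    have := congrArg (fun v : E 3 => v k) hsum
    simpa using this
  have s0 := hs 0
  have s1 := hs 1
  have s2 := hs 2
  have hd2 : ∀ i j, i ≠ j → (q i 0 - q j 0) ^ 2 + (q i 1 - q j 1) ^ 2 + (q i 2 - q j 2) ^ 2
      = l ^ 2 := by
    intro i j hij
    rw [← hd i j hij, dist_eq_norm, norm_sq3]
    simp only [PiLp.sub_apply]
  obtain ⟨I, hI⟩ : ∃ I : Fin 4 → Fin 4 → ℝ, ∀ i j, I i j =
    q i 0 * q j 0 + q i 1 * q j 1 + q i 2 * q j 2 := ⟨_, fun _ _ => rfl⟩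
  have hsym : ∀ i j, I i j = I j i := by intro i j; rw [hI, hI]; ring
  have hrow : ∀ i, I i 0 + I i 1 + I i 2 + I i 3 = 0 := by
    intro i
    simp only [hI]
    linear_combination q i 0 * s0 + q i 1 * s1 + q i 2 * s2
  have hdd : ∀ i j, i ≠ j → I i i + I j j - 2 * I i j = l ^ 2 := by
    intro i j hij
    rw [← hd2 i j hij]; simp only [hI]; ring
  have r0 := hrow 0
  have r1 := hrow 1
  have r2 := hrow 2
  have r3 := hrow 3
  have d01 := hdd 0 1 (by decide)
  have d02 := hdd 0 2 (by decide)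
  have d03 := hdd 0 3 (by decide)
  have d12 := hdd 1 2 (by decide)
  have d13 := hdd 1 3 (by decide)
  have d23 := hdd 2 3 (by decide)
  have y10 := hsym 1 0
  have y20 := hsym 2 0
  have y30 := hsym 3 0
  have y21 := hsym 2 1
  have y31 := hsym 3 1
  have y32 := hsym 3 2
  refine ⟨?_, ?_⟩
  · intro i
    rw [← hI]
    fin_cases i <;> simp only [Fin.zero_eta, Fin.mk_one, Fin.reduceFinMk] <;> linarith
  · intro i j hij
    rw [← hI]
    fin_cases i <;> fin_cases j <;> simp only [Fin.zero_eta, Fin.mk_one, Fin.reduceFinMk] at hij ⊢ <;>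
      first | exact absurd rfl hij | linarith

theorem frame (q : Fin 4 → E 3) (l : ℝ) (hl : 0 < l)
    (h1 : ∀ i, q i 0 * q i 0 + q i 1 * q i 1 + q i 2 * q i 2 = 3 * l ^ 2 / 8)
    (h2 : ∀ i j, i ≠ j → q i 0 * q j 0 + q i 1 * q j 1 + q i 2 * q j 2 = - l ^ 2 / 8)
    (a b : Fin 3) : ∑ i, q i a * q i b = if a = b then l ^ 2 / 2 else 0 := by
  let c : ℝ := Real.sqrt (l ^ 2 / 8)
  have hc : c * c = l ^ 2 / 8 := Real.mul_self_sqrt (by positivity)
  let A : Matrix (Fin 4) (Fin 4) ℝ := fun i k => Fin.lastCases (motive := fun _ => ℝ) c (fun m => q i m) k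
  have hA3 : ∀ i, A i (Fin.last 3) = c := fun i =>
    Fin.lastCases_last (motive := fun _ => ℝ) (last := c) (cast := fun m => q i m)
  have hAm : ∀ i (m : Fin 3), A i m.castSucc = q i m := fun i m =>
    Fin.lastCases_castSucc (motive := fun _ => ℝ) (last := c) (cast := fun m => q i m) m
  have hAAt : A * A.transpose = (l ^ 2 / 2) • (1 : Matrix (Fin 4) (Fin 4) ℝ) := by
    ext i j
    rw [Matrix.mul_apply, Fin.sum_univ_castSucc, Fin.sum_univ_three]
    simp only [Matrix.transpose_apply, hA3, hAm, Matrix.smul_apply, smul_eq_mul]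
    rcases eq_or_ne i j with rfl | hij
    · rw [Matrix.one_apply_eq, h1, hc]; ring
    · rw [Matrix.one_apply_ne hij, h2 i j hij, hc]; ring
  have hB : A * ((2 / l ^ 2) • A.transpose) = 1 := by
    rw [Matrix.mul_smul, hAAt, smul_smul]
    have : 2 / l ^ 2 * (l ^ 2 / 2) = 1 := by field_simp
    rw [this, one_smul]
  have hB2 := mul_eq_one_comm.1 hB
  rw [Matrix.smul_mul] at hB2
  have hentry := congrFun (congrFun hB2 a.castSucc) b.castSucc
  rw [Matrix.smul_apply, Matrix.mul_apply] at hentry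
  simp only [Matrix.transpose_apply, hAm, smul_eq_mul] at hentry
  have hl2 : l ^ 2 ≠ 0 := by positivity
  have h3 : ∑ i, q i a * q i b = l ^ 2 / 2 * (1 : Matrix (Fin 4) (Fin 4) ℝ) a.castSucc b.castSucc := by
    rw [← hentry]; field_simp
  rw [h3, Matrix.one_apply]
  by_cases hab : a = b
  · simp [hab]
  · have : a.castSucc ≠ b.castSucc := fun h => hab (Fin.castSucc_injective _ h)
    simp [hab, this]

theorem not_regular (k : ℝ) (hk : 0 < k) : ¬ IsRegular 3 (parallelepiped (gen k)) := by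
  rintro ⟨q, v, ⟨hsum, l, hl, hdist⟩, hZ⟩
  obtain ⟨g1, g2⟩ := gram q hsum l hdist
  have hf := frame q l hl g1 g2
  rw [zonotope_eq] at hZ
  -- the direction `(5,5,2)`
  obtain ⟨x, hx⟩ : ∃ x : Fin 4 → ℝ, ∀ i, x i = 5 * q i 0 + 5 * q i 1 + 2 * q i 2 :=
    ⟨_, fun _ => rfl⟩
  have hxsum : ∑ i, x i = 0 := by
    have hs : ∀ k : Fin 3, ∑ i, q i k = 0 := by
      intro k
      have := congrArg (fun v : E 3 => v k) hsum
      simpa using this
    simp only [hx, Finset.sum_add_distrib, ← Finset.mul_sum, hs]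
    ring
  have hxsq : ∑ i, x i ^ 2 = 27 * l ^ 2 := by
    have e : ∀ i, x i ^ 2 = 25 * (q i 0 * q i 0) + 25 * (q i 1 * q i 1) + 4 * (q i 2 * q i 2)
        + 50 * (q i 0 * q i 1) + 20 * (q i 0 * q i 2) + 20 * (q i 1 * q i 2) := by
      intro i; rw [hx]; ring
    have f00 : ∑ i, q i 0 * q i 0 = l ^ 2 / 2 := (hf 0 0).trans (if_pos rfl)
    have f11 : ∑ i, q i 1 * q i 1 = l ^ 2 / 2 := (hf 1 1).trans (if_pos rfl)
    have f22 : ∑ i, q i 2 * q i 2 = l ^ 2 / 2 := (hf 2 2).trans (if_pos rfl)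
    have f01 : ∑ i, q i 0 * q i 1 = 0 := (hf 0 1).trans (if_neg (by decide))
    have f02 : ∑ i, q i 0 * q i 2 = 0 := (hf 0 2).trans (if_neg (by decide))
    have f12 : ∑ i, q i 1 * q i 2 = 0 := (hf 1 2).trans (if_neg (by decide))
    simp only [e, Finset.sum_add_distrib, ← Finset.mul_sum, f00, f11, f22, f01, f02, f12]
    ring
  have hxabs : 54 * l ^ 2 ≤ (∑ i, |x i|) ^ 2 := by
    have h1 : ∀ i, 2 * |x i| ≤ ∑ j, |x j| := by
      intro i
      have h2 : x i = -∑ j : Fin 3, x (i.succAbove j) := by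
        rw [Fin.sum_univ_succAbove _ i] at hxsum
        linarith
      have h3 : |x i| ≤ ∑ j : Fin 3, |x (i.succAbove j)| := by
        conv_lhs => rw [h2, abs_neg]
        exact Finset.abs_sum_le_sum_abs _ _
      rw [Fin.sum_univ_succAbove _ i]
      linarith
    have h4 : 2 * ∑ i, x i ^ 2 ≤ (∑ i, |x i|) * ∑ j, |x j| := by
      rw [Finset.mul_sum, Finset.sum_mul]
      refine Finset.sum_le_sum (fun i _ => ?_)
      have := mul_le_mul_of_nonneg_left (h1 i) (abs_nonneg (x i))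
      nlinarith [sq_abs (x i)]
    nlinarith
  -- width upper bound in the example
  have hwidth : ∀ Y ∈ parallelepiped (gen k),
      -36 * k ≤ 5 * Y 0 + 5 * Y 1 + 2 * Y 2 ∧ 5 * Y 0 + 5 * Y 1 + 2 * Y 2 ≤ 84 * k := by
    intro Y hY
    obtain ⟨t, ht, rfl⟩ := (mem_para _ _).1 hY
    rw [Fin.sum_univ_four]
    simp only [gen, w, PiLp.add_apply, PiLp.smul_apply, smul_eq_mul]
    simp only [Matrix.cons_val_zero, Matrix.cons_val_one, Matrix.cons_val]
    have h0 := mul_nonneg (ht 0).1 hk.le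
    have h3 := mul_nonneg (ht 3).1 hk.le
    have h0' := mul_nonneg (sub_nonneg.2 (ht 0).2) hk.le
    have h3' := mul_nonneg (sub_nonneg.2 (ht 3).2) hk.le
    constructor <;> nlinarith
  have hle : ∑ i, |x i| ≤ 120 * k := by
    let X : E 3 := ∑ i, (if 0 < x i then (1 : ℝ) else 0) • q i
    let X' : E 3 := ∑ i, (if 0 < x i then (0 : ℝ) else 1) • q i
    have hX : X ∈ parallelepiped q :=
      (mem_para _ _).2 ⟨_, fun i => by split_ifs <;> norm_num, rfl⟩
    have hX' : X' ∈ parallelepiped q :=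
      (mem_para _ _).2 ⟨_, fun i => by split_ifs <;> norm_num, rfl⟩
    have m1 : v + X ∈ parallelepiped (gen k) := by rw [hZ]; exact ⟨X, hX, rfl⟩
    have m2 : v + X' ∈ parallelepiped (gen k) := by rw [hZ]; exact ⟨X', hX', rfl⟩
    have w1 := (hwidth _ m1).2
    have w2 := (hwidth _ m2).1
    have e : ∑ i, |x i| = (5 * X 0 + 5 * X 1 + 2 * X 2) - (5 * X' 0 + 5 * X' 1 + 2 * X' 2) := by
      have e1 : ∀ a : Fin 3, X a = ∑ i, (if 0 < x i then (1 : ℝ) else 0) * q i a := by
        intro a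
        simp only [X, WithLp.ofLp_sum, Finset.sum_apply, PiLp.smul_apply, smul_eq_mul]
      have e2 : ∀ a : Fin 3, X' a = ∑ i, (if 0 < x i then (0 : ℝ) else 1) * q i a := by
        intro a
        simp only [X', WithLp.ofLp_sum, Finset.sum_apply, PiLp.smul_apply, smul_eq_mul]
      simp only [e1, e2, Finset.mul_sum, ← Finset.sum_add_distrib, ← Finset.sum_sub_distrib]
      refine Finset.sum_congr rfl (fun i _ => ?_)
      split_ifs with h
      · rw [abs_of_pos h, hx]; ring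
      · rw [abs_of_nonpos (not_lt.1 h), hx]; ring
    simp only [PiLp.add_apply] at w1 w2
    rw [e]
    linarith
  -- diameter
  have hdiam : 288 * k ^ 2 ≤ l ^ 2 := by
    have hY : gen k 0 + gen k 1 ∈ parallelepiped (gen k) :=
      (mem_para _ _).2 ⟨![1, 1, 0, 0], by intro i; fin_cases i <;> simp, by
        rw [Fin.sum_univ_four]; simp⟩
    have hY' : gen k 2 + gen k 3 ∈ parallelepiped (gen k) :=
      (mem_para _ _).2 ⟨![0, 0, 1, 1], by intro i; fin_cases i <;> simp, by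
        rw [Fin.sum_univ_four]; simp⟩
    rw [hZ] at hY hY'
    obtain ⟨a, ha, haY⟩ := hY
    obtain ⟨b, hb, hbY⟩ := hY'
    obtain ⟨t, ht, rfl⟩ := (mem_para _ _).1 ha
    obtain ⟨s, hs, rfl⟩ := (mem_para _ _).1 hb
    obtain ⟨τ, hτ⟩ : ∃ τ : Fin 4 → ℝ, ∀ i, τ i = t i - s i := ⟨_, fun _ => rfl⟩
    have hdiff : ∑ i, τ i • q i = gen k 0 + gen k 1 - (gen k 2 + gen k 3) := by
      rw [← haY, ← hbY]
      simp only [hτ, sub_smul, Finset.sum_sub_distrib]
      abel
    have hn : ‖∑ i, τ i • q i‖ ^ 2 = 576 * k ^ 2 := by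
      rw [hdiff, norm_sq3]
      simp only [gen, w, PiLp.add_apply, PiLp.sub_apply, PiLp.smul_apply, smul_eq_mul]
      simp only [Matrix.cons_val_zero, Matrix.cons_val_one, Matrix.cons_val]
      ring
    have hn2 : ‖∑ i, τ i • q i‖ ^ 2 = (l ^ 2 / 2) * (τ 0 ^ 2 + τ 1 ^ 2 + τ 2 ^ 2 + τ 3 ^ 2)
        - (l ^ 2 / 8) * (τ 0 + τ 1 + τ 2 + τ 3) ^ 2 := by
      rw [norm_sq3, Fin.sum_univ_four]
      simp only [PiLp.add_apply, PiLp.smul_apply, smul_eq_mul]
      linear_combination τ 0 ^ 2 * g1 0 + τ 1 ^ 2 * g1 1 + τ 2 ^ 2 * g1 2 + τ 3 ^ 2 * g1 3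
        + 2 * τ 0 * τ 1 * g2 0 1 (by decide) + 2 * τ 0 * τ 2 * g2 0 2 (by decide)
        + 2 * τ 0 * τ 3 * g2 0 3 (by decide) + 2 * τ 1 * τ 2 * g2 1 2 (by decide)
        + 2 * τ 1 * τ 3 * g2 1 3 (by decide) + 2 * τ 2 * τ 3 * g2 2 3 (by decide)
    have hτ1 : ∀ i, τ i ^ 2 ≤ 1 := by
      intro i
      rw [hτ, sq_le_one_iff_abs_le_one, abs_le]
      constructor <;> linarith [(ht i).1, (ht i).2, (hs i).1, (hs i).2]
    have hl2 : 0 < l ^ 2 := by positivity
    have hle4 : τ 0 ^ 2 + τ 1 ^ 2 + τ 2 ^ 2 + τ 3 ^ 2 ≤ 4 := by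
      linarith [hτ1 0, hτ1 1, hτ1 2, hτ1 3]
    have := mul_le_mul_of_nonneg_left hle4 (by positivity : 0 ≤ l ^ 2 / 2)
    have h5 : 0 ≤ (l ^ 2 / 8) * (τ 0 + τ 1 + τ 2 + τ 3) ^ 2 := by positivity
    linarith [hn, hn2]
  have hk2 : 0 < k ^ 2 := by positivity
  have habs0 : 0 ≤ ∑ i, |x i| := Finset.sum_nonneg (fun i _ => abs_nonneg _)
  have hfin : (∑ i, |x i|) ^ 2 ≤ (120 * k) ^ 2 := by gcongr
  nlinarith

/-- There is a rhombic dodecahedron in dimension three of unit volume, with any three of its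
four generators linearly independent, whose circumradius is minimal among all rhombic
dodecahedra of unit volume, and which is not regular. -/
theorem result : ∃ p : Fin 4 → E 3,
    (∀ i : Fin 4, LinearIndependent ℝ (fun j => p (i.succAbove j))) ∧
    IsRhombicDodecahedron 3 (zonotope p) ∧ volume (zonotope p) = 1 ∧
    (∀ Z : Set (E 3), IsRhombicDodecahedron 3 Z → volume Z = 1 →
      circumradius (zonotope p) ≤ circumradius Z) ∧
    ¬ IsRegular 3 (zonotope p) := by
  obtain ⟨k, hk0, hk⟩ : ∃ k : ℝ, 0 < k ∧ 3456 * k ^ 3 = 1 := by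
    refine ⟨(1 / 3456 : ℝ) ^ (1 / 3 : ℝ), by positivity, ?_⟩
    rw [← Real.rpow_natCast, ← Real.rpow_mul (by norm_num)]
    norm_num
  have hvol : volume (parallelepiped (gen k)) = 1 := by
    refine le_antisymm ?_ (vol_gen_ge k hk0 hk)
    have := vol_le (gen k) _ _ (gen_sub_ball k hk0)
    have h2 : 2 * (12 * k) ^ 3 = 1 := by linarith [hk, (by ring : 2 * (12 * k) ^ 3 = 3456 * k ^ 3)]
    rwa [h2, ENNReal.ofReal_one] at this
  refine ⟨gen k, gen_li k hk0, ?_, ?_, ?_, ?_⟩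
  · refine ⟨⟨gen k, rfl⟩, ?_⟩
    rw [zonotope_eq]
    exact interior_nonempty _ (by rw [hvol]; exact one_ne_zero)
  · rw [zonotope_eq]; exact hvol
  · intro Z hZ hv
    rw [zonotope_eq]
    exact (circ_gen_le k hk0).trans (circ_ge k hk Z hZ hv)
  · rw [zonotope_eq]
    exact not_regular k hk0

end Pool.Agent.Results.MP_de3f1f_gt.NonRegularMinimiser
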